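import Pool.Agent.Lib.MP_5932b0_an.AR.Main2
import Pool.Agent.Lib.MP_5932b0_an.ST.Fin

/-!
# Allard-type regularity for all integrands close to area (MP_5932b0_an, Q1, full answer)

All definitions used in the statement are in `Pool/Agent/Lib/MP_5932b0_an/ST/Stm.lean`.
-/

open AllardStm in
/-- For all `1 ≤ m < n` there is `δ > 0` such that the Allard-type theorem holds for every integrand
`Ψ` on `G(n,m)` of class `C²` with `‖Ψ - 1‖_{C²} ≤ δ`. -/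
theorem Pool.Agent.Results.MP_5932b0_an.AllardNearArea.result :
    ∀ n m : ℕ, 1 ≤ m → m < n → ∃ δ : ℝ, 0 < δ ∧
      ∀ Ψ : Pl n → ℝ, IsIntegrand m 2 Ψ → CloseToArea m 2 δ Ψ →
        AllardTheorem n m Ψ := by
  intro n m hm hmn
  refine allard_of_sys hm hmn ?_
  obtain ⟨δ₀, hδ₀, h⟩ := Allard.main_sys2 n m (by omega) hm
  refine ⟨δ₀, hδ₀, fun α hα => ?_⟩
  obtain ⟨ε, γ, β, h1, h2, h3, h4, h5, h6, h⟩ := h α hα.1 hα.2
  refine ⟨ε, ⟨h1, h2⟩, γ, ⟨h3, h4⟩, β, ⟨h5, h6⟩, fun δ hδ hδ' S Λ hΛ hΛ' V hAE h0 hV => ?_⟩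
  obtain ⟨Q, c, D, hQ, -, k1, k2, k3, k4⟩ := h V hδ hδ' hΛ hΛ' hAE hV h0
  exact ⟨Q, D, c, hQ, k1, k2, k3, k4⟩
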